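import Mathlib
import Pool.Agent.H664.QK.Stm

/-!
# QK (helper664), job COV (helper385)
-/

set_option autoImplicit false

open Polynomial

namespace Pool.Agent.H385.QK

open Pool.Agent.H664.QK

/-- the polynomial of a linear form on `k ^ N`: its value at `t` is the value at `(1, t, …)` -/
noncomputable def lp {k : Type} [Field k] {N : ℕ} (f : (Fin N → k) →ₗ[k] k) : k[X] :=
  ∑ j : Fin N, C (f (Pi.single j 1)) * X ^ (j : ℕ)

theorem lp_eval {k : Type} [Field k] {N : ℕ} (f : (Fin N → k) →ₗ[k] k) (t : k) :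
    (lp f).eval t = f (fun j : Fin N => t ^ (j : ℕ)) := by
  have h := LinearMap.pi_apply_eq_sum_univ f (fun j : Fin N => t ^ (j : ℕ))
  rw [h, lp, eval_finsetSum]
  refine Finset.sum_congr rfl fun j _ => ?_
  rw [eval_mul, eval_C, eval_pow, eval_X, smul_eq_mul, mul_comm]
  congr 2
  funext i
  rw [Pi.single_apply]
  by_cases h : i = j
  · rw [if_pos h, if_pos h.symm]
  · rw [if_neg h, if_neg (Ne.symm h)]

theorem lp_coeff {k : Type} [Field k] {N : ℕ} (f : (Fin N → k) →ₗ[k] k) (j : Fin N) :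
    (lp f).coeff (j : ℕ) = f (Pi.single j 1) := by
  rw [lp, finsetSum_coeff, Finset.sum_eq_single j]
  · rw [coeff_C_mul_X_pow, if_pos rfl]
  · intro i _ hij
    rw [coeff_C_mul_X_pow, if_neg]
    intro h
    exact hij (Fin.ext h).symm
  · intro h
    exact absurd (Finset.mem_univ j) h

theorem lp_ne {k : Type} [Field k] {N : ℕ} (f : (Fin N → k) →ₗ[k] k) (hf : f ≠ 0) : lp f ≠ 0 := by
  intro h
  apply hf
  apply LinearMap.pi_ext'
  intro j
  apply LinearMap.ext_ring
  have h1 := lp_coeff f j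
  rw [h, coeff_zero] at h1
  exact h1.symm

theorem cov : S_cov := by
  intro k _ _ N W hW
  have hf : ∀ i, ∃ f : (Fin N → k) →ₗ[k] k, f ≠ 0 ∧ W i ≤ LinearMap.ker f := fun i =>
    Submodule.exists_le_ker_of_lt_top (W i) (lt_top_iff_ne_top.2 (hW i))
  choose f hf0 hfW using hf
  have hc : (⋃ i, {t : k | (lp (f i)).IsRoot t}).Countable :=
    Set.countable_iUnion fun i => (finite_setOfPred_isRoot (lp_ne (f i) (hf0 i))).countable
  obtain ⟨t, ht⟩ : ∃ t, t ∉ ⋃ i, {t : k | (lp (f i)).IsRoot t} := by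
    by_contra hcon
    push Not at hcon
    have h1 : (Set.univ : Set k).Countable := hc.mono fun t _ => hcon t
    exact Set.not_countable_univ h1
  refine ⟨fun j : Fin N => t ^ (j : ℕ), fun i hi => ht ?_⟩
  rw [Set.mem_iUnion]
  refine ⟨i, ?_⟩
  show (lp (f i)).eval t = 0
  rw [lp_eval]
  exact hfW i hi

end Pool.Agent.H385.QK
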